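import Mathlib
import Pool.Agent.H18.Jam3

set_option autoImplicit false

namespace Pool.Agent.Results.MP_585e0c_gt.Cubic

open Finset RealInnerProductSpace Pool.Agent.H18.Jam

/-- A kissing configuration: unit vectors with pairwise inner products at most 1/2. -/
def Kissing {n : ℕ} (C : Finset (EuclideanSpace ℝ (Fin n))) : Prop :=
  (∀ x ∈ C, ‖x‖ = 1) ∧ ∀ x ∈ C, ∀ y ∈ C, x ≠ y → ⟪x, y⟫ ≤ 1 / 2

/-- Jammed: every continuous motion through kissing configurations is rigid. -/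
def Jammed {n : ℕ} (C : Finset (EuclideanSpace ℝ (Fin n))) : Prop :=
  ∀ f : C → unitInterval → EuclideanSpace ℝ (Fin n), (∀ x, Continuous (f x)) → (∀ x, f x 0 = x.1) →
    (∀ x t, ‖f x t‖ = 1) → (∀ t x y, x ≠ y → ⟪f x t, f y t⟫ ≤ 1 / 2) →
      ∀ t, ∃ A : EuclideanSpace ℝ (Fin n) ≃ₗᵢ[ℝ] EuclideanSpace ℝ (Fin n), ∀ x, f x t = A x.1

theorem cubic (m : ℕ) (hm : 2 ≤ m) : ∃ C : Finset (EuclideanSpace ℝ (Fin (2 ^ m))),
    Kissing C ∧ Jammed C ∧ (2 ^ m).descFactorial 3 ≤ 64 * C.card := by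
  classical
  let σ : Fin (2 ^ m) ≃ (Fin m → ZMod 2) := (Fintype.equivFinOfCardEq (by simp)).symm
  have h2 : ∀ v : Fin m → ZMod 2, v + v = 0 := fun v => funext fun i => CharTwo.add_self_eq_zero _
  have h3 : 3 ≤ Fintype.card (Fin (2 ^ m)) := by
    have : 2 ^ 2 ≤ 2 ^ m := Nat.pow_le_pow_right (by norm_num) hm
    rw [Fintype.card_fin]; omega
  have bd : ∀ z : Fin (2 ^ m) → ℤ, ∑ i, z i * z i = 4 → ∀ i, -2 ≤ z i ∧ z i ≤ 2 := fun z h i => by
    have := single_le_sum (f := fun i => z i * z i) (fun i _ => mul_self_nonneg _) (mem_univ i)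
    constructor <;> nlinarith
  let Z := (Fintype.piFinset fun _ : Fin (2 ^ m) => Icc (-2 : ℤ) 2).filter
    fun z => z ∈ Lam σ ∧ ∑ i, z i * z i = 4
  have hZ : ∀ z, z ∈ Z ↔ z ∈ Lam σ ∧ ∑ i, z i * z i = 4 := fun z => by
    simp only [Z, mem_filter, Fintype.mem_piFinset, mem_Icc]
    exact ⟨fun h => h.2, fun h => ⟨bd z h.2, h⟩⟩
  have e4 : ∀ z : Fin (2 ^ m) → ℤ, ⟪emb z, emb z⟫ = 1 ↔ ∑ i, z i * z i = 4 := fun z => by
    rw [emb_inner, div_eq_one_iff_eq (by norm_num)]; norm_cast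
  have hC : ∀ v, v ∈ Z.image emb ↔ v ∈ (Lam σ).map emb ∧ ⟪v, v⟫ = 1 := fun v => by
    simp only [mem_image, hZ, AddSubgroup.mem_map]
    constructor
    · rintro ⟨z, h, rfl⟩; exact ⟨⟨z, h.1, rfl⟩, (e4 z).2 h.2⟩
    · rintro ⟨⟨z, h, rfl⟩, h'⟩; exact ⟨z, ⟨h, (e4 z).1 h'⟩, rfl⟩
  have hn : ∀ x ∈ Z.image emb, ‖x‖ = 1 := fun x hx => by
    have := ((hC x).1 hx).2
    rw [real_inner_self_eq_norm_sq] at this
    nlinarith [norm_nonneg x]
  have ea : ∀ (z : Fin (2 ^ m) → ℤ) i, emb z i = (z i : ℝ) / 2 := fun _ _ => rfl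
  have einj : Function.Injective (emb : (Fin (2 ^ m) → ℤ) → _) := fun z w h => funext fun i => by
    have := congrArg (fun v => v i) h
    simp only [ea] at this
    exact_mod_cast (div_left_inj' two_ne_zero).1 this
  refine ⟨Z.image emb, ⟨hn, ?_⟩, ?_, ?_⟩
  · simp only [forall_mem_image, hZ]
    intro z hz w hw hne
    have := minn σ h2 ((Lam σ).sub_mem hz.1 hw.1) (sub_ne_zero.2 fun e => hne (by rw [e]))
    simp only [Pi.sub_apply, sub_mul, mul_sub, sum_sub_distrib, mul_comm (w _) (z _), hz.2, hw.2] at this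
    rw [emb_inner, div_le_iff₀ (by norm_num)]
    have : ((∑ i, z i * w i : ℤ) : ℝ) ≤ (2 : ℤ) := Int.cast_le.2 (by omega)
    norm_num at this ⊢
    exact this
  · have hb : ∀ i, EuclideanSpace.single i (1 : ℝ) = emb (Pi.single i 2) := fun i => by
      ext j; rw [ea]; by_cases h : j = i <;> simp [h]
    have hb' : ∀ i, EuclideanSpace.single i (1 : ℝ) ∈ Z.image emb := fun i =>
      mem_image.2 ⟨_, (hZ _).2 ⟨⟨by simp [Pi.single_apply, two_smul, h2], by simp⟩,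
        by simp [Pi.single_apply]⟩, (hb i).symm⟩
    intro f a1 a2 a3 a4 t
    refine jammed Subtype.val (fun i => ⟨_, hb' i⟩) (fun i => rfl) (fun p => hn _ p.2)
      (lin _ _ hC _ (fun i => rfl) ?_ ?_) f a1 a2 a3 a4 t
    · simp only [forall_mem_image, hZ, ea]
      intro z hz k
      obtain ⟨b1, b2⟩ := bd z hz.2 k
      interval_cases z k <;> norm_num
    · simp only [forall_mem_image, hZ]
      intro z hz k hk
      obtain ⟨b, b1, c, c1, b2, c2, d1, d2, d3, d4, d5⟩ := orth_int σ h2 h3 hz.1 hz.2 k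
        (by rw [ea] at hk; simpa using hk)
      refine ⟨emb b, mem_image_of_mem _ ((hZ _).2 ⟨b1, b2⟩), emb c,
        mem_image_of_mem _ ((hZ _).2 ⟨c1, c2⟩), ?_⟩
      simp only [emb_inner, ea, d1, d2, d3, d4, d5]
      norm_num
  · rw [card_image_of_injective _ einj]
    have hd := fun g : Fin 3 ↪ Fin (2 ^ m) => fourth σ h2 (g.injective.ne (by decide : (0 : Fin 3) ≠ 1))
      (g.injective.ne (by decide : (0 : Fin 3) ≠ 2)) (g.injective.ne (by decide : (1 : Fin 3) ≠ 2))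
    choose d d1 d2 d3 d4 using hd
    let φ := fun g : Fin 3 ↪ Fin (2 ^ m) => four (g 0) (g 1) (g 2) (d g) 1 1 1 1
    have n1 := fun g : Fin 3 ↪ Fin (2 ^ m) => g.injective.ne (by decide : (0 : Fin 3) ≠ 1)
    have n2 := fun g : Fin 3 ↪ Fin (2 ^ m) => g.injective.ne (by decide : (0 : Fin 3) ≠ 2)
    have n3 := fun g : Fin 3 ↪ Fin (2 ^ m) => g.injective.ne (by decide : (1 : Fin 3) ≠ 2)
    have v : ∀ g, (∀ i, φ g (g i) = 1) ∧ φ g (d g) = 1 := fun g => by
      refine ⟨fun i => ?_, ?_⟩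
      · fin_cases i <;> simp [φ, four, d1 g, d2 g, d3 g]
      · simp [φ, four, (d1 g).symm, (d2 g).symm, (d3 g).symm]
    have hφ : ∀ g, φ g ∈ Z := fun g => (hZ _).2 ⟨four_mem σ h2 rfl rfl rfl rfl (d4 g), by
      rw [show φ g = four _ _ _ _ _ _ _ _ from rfl, ip_four]
      change φ g _ * 1 + φ g _ * 1 + φ g _ * 1 + φ g _ * 1 = 4
      rw [(v g).1, (v g).1, (v g).1, (v g).2]; rfl⟩
    have := card_le_mul_card_image_of_maps_to (s := univ) (t := Z) (f := φ) (fun g _ => hφ g) 64 ?_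
    · simpa using this
    · intro z hz
      have s4 : (univ.filter fun i => z i = 1).card ≤ 4 := by
        have := sum_le_sum_of_subset_of_nonneg (f := fun i => z i * z i)
          (subset_univ (univ.filter fun i => z i = 1)) fun i _ _ => mul_self_nonneg _
        rw [((hZ z).1 hz).2, sum_congr rfl (g := fun _ => 1) fun i hi => by
          rw [(mem_filter.1 hi).2]; rfl] at this
        simpa using this
      refine (card_le_card_of_injOn (t := Fintype.piFinset fun _ : Fin 3 => univ.filter fun i => z i = 1)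
        (fun g : Fin 3 ↪ Fin (2 ^ m) => (g : Fin 3 → Fin (2 ^ m))) (fun g hg => ?_) fun _ _ _ _ h => DFunLike.coe_injective h).trans ?_
      · simp only [coe_filter, mem_univ, true_and, Set.mem_ofPred_eq] at hg
        simp [← hg, (v g).1]
      · rw [Fintype.card_piFinset_const]
        exact Nat.pow_le_pow_left s4 3

theorem result :
    (∀ m : ℕ, 2 ≤ m → ∃ C : Finset (EuclideanSpace ℝ (Fin (2 ^ m))), Kissing C ∧ Jammed C ∧
      2 ^ m * (2 ^ m - 1) * (2 ^ m - 2) ≤ 64 * C.card) ∧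
    ∀ K N : ℕ, ∃ n ≥ N, ∃ C : Finset (EuclideanSpace ℝ (Fin n)),
      Kissing C ∧ Jammed C ∧ K * n ^ 2 < C.card := by
  have h : ∀ m : ℕ, 2 ≤ m → ∃ C : Finset (EuclideanSpace ℝ (Fin (2 ^ m))), Kissing C ∧ Jammed C ∧
      2 ^ m * (2 ^ m - 1) * (2 ^ m - 2) ≤ 64 * C.card := fun m hm => by
    obtain ⟨C, h1, h2, h3⟩ := cubic m hm
    refine ⟨C, h1, h2, le_of_eq_of_le ?_ h3⟩
    simp [Nat.descFactorial]; ring
  refine ⟨h, fun K N => ?_⟩
  obtain ⟨C, h1, h2, h3⟩ := h (64 * K + N + 5) (by omega)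
  have h4 : 64 * K + N + 5 < 2 ^ (64 * K + N + 5) := Nat.lt_two_pow_self
  refine ⟨_, by omega, C, h1, h2, ?_⟩
  obtain ⟨r, hr⟩ : ∃ r, 2 ^ (64 * K + N + 5) = r + 2 := ⟨_, (Nat.sub_add_cancel (by omega)).symm⟩
  have h5 : 64 * K + 4 ≤ r := by omega
  generalize C.card = c at h3 ⊢
  rw [hr] at h3 ⊢
  rw [show r + 2 - 1 = r + 1 from rfl, show r + 2 - 2 = r from rfl] at h3
  have h6 : 64 * K * (r + 2) < (r + 1) * r := by nlinarith
  nlinarith

end Pool.Agent.Results.MP_585e0c_gt.Cubic
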